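import Pool.Agent.Helper19.TGX.Goals
import Pool.Agent.Helper35.TG.RGEN

/-!
# Project TGX (MP_a41896_nt), packet PID: the identity of an additive formula
-/

set_option autoImplicit false

open Polynomial

namespace Pool.Agent.Helper63.TGX.PID

open WeierstrassCurve
open Pool.Agent.Helper29.BL Pool.Agent.Helper42.SG
open Pool.Agent.Helper60.T3 (WL IP)
open Pool.Agent.Helper60.TGX (Val AddF)
open Pool.Agent.Helper19.TGX
open Pool.Agent.Helper35.TG.RGEN (ps_sq exists_pt)

noncomputable section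

theorem t (hB : BPF) : Pool.Agent.Helper19.TGX.PID := by
  classical
  intro k _ _ W W' hW hW' A B C' E' hA
  obtain ⟨-, -, -, -, w1, -, -⟩ := hB k W hW
  obtain ⟨-, -, -, -, -, w2, w3⟩ := hB k W' hW'
  obtain ⟨P, hP, hx⟩ := exists_pt (W := W)
    (algebraMap (RatFunc k) (AlgebraicClosure (RatFunc k)) RatFunc.X)
  have hT : Transcendental k (xc P) := by
    rw [hx]
    exact (transcendental_algebraMap_iff
      (algebraMap (RatFunc k) (AlgebraicClosure (RatFunc k))).injective).mpr
      RatFunc.transcendental_X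
  obtain ⟨R, hR0, hR1, hR2⟩ := hA.ex _ P hT
  have hψ2 : ps P ^ 2 = aeval (xc P) (bp W) := by
    rw [w1, ps_sq P hP]
  have h2 := ps_sq R hR0
  have h1 := w2 _ (xc P) (xc R) A B hR1
  have key : E' ^ 2 * hf W' A B = C' ^ 2 * bp W * B ^ 3 := by
    rw [← sub_eq_zero]
    apply (transcendental_iff.mp hT)
    rw [map_sub, map_mul, map_mul, map_mul, map_pow, map_pow, map_pow, h1, ← h2, ← hψ2]
    have h3 : (ps R * aeval (xc P) E') ^ 2 = (aeval (xc P) C' * ps P) ^ 2 := by
      rw [hR2]
    linear_combination (aeval (xc P) B ^ 3) * h3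
  refine ⟨key, ?_⟩
  intro hC
  rw [hC] at key
  have h4 : E' ^ 2 * hf W' A B = 0 := by
    rw [key]
    ring
  have h5 : hf W' A B = 0 := (mul_eq_zero.mp h4).resolve_left (pow_ne_zero 2 hA.hE)
  exact hA.nc ((w3 A B hA.cop).2 h5)

end

end Pool.Agent.Helper63.TGX.PID
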